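import Pool.Agent.Helper98.SPR.Stmts

/-!
# Row AREA: disjoint discs in a disc
-/

set_option autoImplicit false

namespace SPR

open MeasureTheory Metric

theorem st_AREA : ST_AREA := by
  intro N x ρ T z R hρ hdisj hT hR
  have hsub : (⋃ d ∈ T, ball (x d) (ρ d)) ⊆ ball z R := by
    intro y hy
    simp only [Set.mem_iUnion] at hy
    obtain ⟨d, hd, hyd⟩ := hy
    rw [mem_ball] at hyd ⊢
    have h1 := hT d hd
    unfold fd at h1
    have h2 := dist_triangle y (x d) z
    linarith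
  have hpd : Set.PairwiseDisjoint (↑T : Set (Fin N)) (fun d => ball (x d) (ρ d)) := by
    intro d _ d' _ hne
    exact ball_disjoint_ball (hdisj d d' hne)
  have h1 : volume (⋃ d ∈ T, ball (x d) (ρ d)) = ∑ d ∈ T, volume (ball (x d) (ρ d)) :=
    measure_biUnion_finset hpd (fun d _ => measurableSet_ball)
  have h2 : ∑ d ∈ T, volume (ball (x d) (ρ d)) ≤ volume (ball z R) := h1 ▸ measure_mono hsub
  simp only [Complex.volume_ball] at h2
  have h3 : ∀ r : ℝ, 0 ≤ r → ENNReal.ofReal r ^ 2 * (NNReal.pi : ENNReal)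
      = ENNReal.ofReal (r ^ 2 * Real.pi) := by
    intro r hr
    rw [ENNReal.ofReal_mul (by positivity), ENNReal.ofReal_pow hr]
    congr 1
    rw [ENNReal.ofReal, ← NNReal.coe_real_pi, Real.toNNReal_coe]
  have h4 : ∑ d ∈ T, ENNReal.ofReal (ρ d) ^ 2 * (NNReal.pi : ENNReal)
      = ENNReal.ofReal (∑ d ∈ T, ρ d ^ 2 * Real.pi) := by
    rw [ENNReal.ofReal_sum_of_nonneg (fun d _ => by positivity)]
    exact Finset.sum_congr rfl fun d _ => h3 _ (hρ d).le
  rw [h4, h3 R hR] at h2
  have h5 := (ENNReal.ofReal_le_ofReal_iff (by positivity)).1 h2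
  rw [← Finset.sum_mul] at h5
  exact le_of_mul_le_mul_right h5 Real.pi_pos

end SPR
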