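import Pool.Agent.Helper98.SPR.Stmts

/-!
# Row AREA2: disjoint discs meeting a disc
-/

set_option autoImplicit false

namespace SPR

/-- shrinking a disc towards a point -/
theorem area2_move (x z : ℂ) (ρ R : ℝ) (hR : 0 < R) (h : dist x z - ρ ≤ R) :
    ∃ x' : ℂ, dist x x' ≤ ρ - min ρ R ∧ dist x' z + min ρ R ≤ 3 * R := by
  rcases le_total ρ R with h1 | h1
  · refine ⟨x, ?_, ?_⟩
    · rw [dist_self, min_eq_left h1, sub_self]
    · rw [min_eq_left h1]; linarith
  · rw [min_eq_right h1]
    rcases le_total (dist x z) (ρ - R) with h2 | h2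
    · exact ⟨z, h2, by rw [dist_self]; linarith⟩
    · rcases eq_or_lt_of_le (dist_nonneg : 0 ≤ dist x z) with h3 | h3
      · exact ⟨z, by rw [← h3]; linarith, by rw [dist_self]; linarith⟩
      · set t : ℝ := (ρ - R) / dist x z with ht
        have ht0 : 0 ≤ t := div_nonneg (by linarith) h3.le
        have ht1 : t ≤ 1 := by rw [ht, div_le_one h3]; exact h2
        refine ⟨x + (t : ℂ) * (z - x), ?_, ?_⟩
        · rw [Complex.dist_eq]
          have h4 : x - (x + (t : ℂ) * (z - x)) = (t : ℂ) * (x - z) := by ring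
          rw [h4, norm_mul, Complex.norm_real, Real.norm_of_nonneg ht0, ← Complex.dist_eq, ht,
            div_mul_cancel₀ _ h3.ne']
        · rw [Complex.dist_eq]
          have h4 : x + (t : ℂ) * (z - x) - z = ((1 - t : ℝ) : ℂ) * (x - z) := by push_cast; ring
          rw [h4, norm_mul, Complex.norm_real, Real.norm_of_nonneg (by linarith), ← Complex.dist_eq,
            sub_mul, ht, div_mul_cancel₀ _ h3.ne']
          linarith

theorem st_AREA2 (hA : ST_AREA) : ST_AREA2 := by
  intro N x ρ T z R hρ hdisj hR hT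
  have hch : ∀ d : Fin N, ∃ x' : ℂ, dist (x d) x' ≤ ρ d - min (ρ d) R ∧
      (d ∈ T → dist x' z + min (ρ d) R ≤ 3 * R) := by
    intro d
    by_cases hd : d ∈ T
    · obtain ⟨x', h1, h2⟩ := area2_move (x d) z (ρ d) R hR (hT d hd)
      exact ⟨x', h1, fun _ => h2⟩
    · exact ⟨x d, by rw [dist_self]; linarith [min_le_left (ρ d) R], fun h => absurd h hd⟩
  choose x' hx1 hx2 using hch
  have h1 := hA N x' (fun d => min (ρ d) R) T z (3 * R) (fun d => lt_min (hρ d) hR) ?_ ?_
    (by linarith)
  · calc ∑ d ∈ T, (min (ρ d) R) ^ 2 ≤ (3 * R) ^ 2 := h1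
      _ = 9 * R ^ 2 := by ring
  · intro d d' hne
    have h2 := hdisj d d' hne
    have h3 := hx1 d
    have h4 := hx1 d'
    have h5 : dist (x d) (x d') ≤ dist (x d) (x' d) + dist (x' d) (x' d') + dist (x d') (x' d') := by
      have := dist_triangle4 (x d) (x' d) (x' d') (x d')
      rw [dist_comm (x' d') (x d')] at this
      exact this
    linarith
  · intro d hd
    exact hx2 d hd

end SPR
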